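import Pool.Agent.H37.CPX.Targets

/-!
# Cutting planes of any depth, row STH (helper74): spread `A`, spread `B`
-/

set_option autoImplicit false

namespace Pool.Agent.H74.CPX

open Finset Pool.Agent.H37.CPX

theorem sth_core {N : ℕ} {QX QY : Type} (u : (Fin N → QX) → ℝ) (w : (Fin N → QY) → ℝ)
    (D : (Fin N → QX) → (Fin N → QY) → ℝ) (cl : Finset (Fin N → QY) → Prop)
    (Ys : Finset (Fin N → QY)) (T : Finset (Fin N)) (A : Finset (Fin N → QX))
    (θ K Ky M c : ℝ) (z : ℕ) (hz : 1 ≤ z) (hK : 0 ≤ K) (hKy : 0 ≤ Ky) (hM : 0 ≤ M) (hc : 0 ≤ c)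
    (hcl : ∀ B, cl B → B ⊆ Ys ∧ Flat T B)
    (hA : 2 * (A.filter (fun x => θ < u x)).card ≤ A.card)
    (hlo : PP (Tr u w) D (clF Ys T) A (K * (1 / 32) * Real.sqrt A.card)
      (Ky * (c / (32 * z))) (M * (1 / 4)))
    (hhi : PP (Tr u w) D (clF Ys T) (A.filter (fun x => θ < u x))
      (K * (8 / 7) * Real.sqrt (A.filter (fun x => θ < u x)).card)
      (Ky * (1 - 1 / (16 * z))) (M * (1 / 4)))
    (hlow : ∀ B, cl B → Ky ^ 2 < 4 * B.card →
      (B.card : ℝ) ≤ c ^ 2 * (B.filter (fun y => w y < θ)).card →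
      ∀ F ⊆ A, ∀ G ⊆ B, |∑ x ∈ F, ∑ y ∈ G, D x y| ≤ M * (1 / 4)) :
    PP (Tr u w) D cl A (27 / 32 * (K * Real.sqrt A.card)) (Ky * (1 - 1 / (32 * z))) (M / 2) := by
  classical
  obtain ⟨E1, hE1, hE1c, h1⟩ := hlo
  obtain ⟨E2, hE2, hE2c, h2⟩ := hhi
  have hz' : (1 : ℝ) ≤ z := by exact_mod_cast hz
  have hz0 : (0 : ℝ) < z := by linarith
  have hzinv : 1 / (z : ℝ) ≤ 1 := by
    rw [div_le_one hz0]
    exact hz'
  have hzinv0 : 0 ≤ 1 / (z : ℝ) := by positivity
  have e32 : 1 / (32 * (z : ℝ)) = 1 / 32 * (1 / z) := by field_simp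
  have e16 : 1 / (16 * (z : ℝ)) = 1 / 16 * (1 / z) := by field_simp
  refine ⟨E1 ∪ E2, union_subset hE1 (hE2.trans (filter_subset _ _)), ?_, ?_⟩
  · -- the size of the exceptional set
    have h3 : Real.sqrt (A.filter (fun x => θ < u x)).card ≤
        91 / 128 * Real.sqrt A.card := by
      rw [← Real.sqrt_sq (show (0 : ℝ) ≤ 91 / 128 by norm_num),
        ← Real.sqrt_mul (by positivity)]
      apply Real.sqrt_le_sqrt
      have h4 : (2 : ℝ) * (A.filter (fun x => θ < u x)).card ≤ A.card := by exact_mod_cast hA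
      have h5 : (0 : ℝ) ≤ A.card := Nat.cast_nonneg _
      nlinarith
    have h4 : ((E1 ∪ E2).card : ℝ) ≤ E1.card + E2.card := by
      exact_mod_cast card_union_le E1 E2
    have h5 : K * (8 / 7) * Real.sqrt (A.filter (fun x => θ < u x)).card ≤
        K * (8 / 7) * (91 / 128 * Real.sqrt A.card) :=
      mul_le_mul_of_nonneg_left h3 (by positivity)
    linarith
  · intro B hB
    obtain ⟨hBY, hBT⟩ := hcl B hB
    have hsB : (0 : ℝ) ≤ Real.sqrt B.card := Real.sqrt_nonneg _
    by_cases hcase : (4 : ℝ) * B.card ≤ Ky ^ 2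
    · refine ⟨B, Subset.rfl, ?_, ?_⟩
      · have h3 : Real.sqrt B.card ≤ Ky / 2 := by
          apply Real.sqrt_le_iff.2
          refine ⟨by linarith, ?_⟩
          nlinarith
        have h4 : (B.card : ℝ) = Real.sqrt B.card * Real.sqrt B.card :=
          (Real.mul_self_sqrt (Nat.cast_nonneg _)).symm
        have h5 : Ky / 2 ≤ Ky * (1 - 1 / (32 * z)) := by
          rw [e32]
          nlinarith
        calc (B.card : ℝ) = Real.sqrt B.card * Real.sqrt B.card := h4
          _ ≤ Ky * (1 - 1 / (32 * z)) * Real.sqrt B.card :=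
            mul_le_mul_of_nonneg_right (h3.trans h5) hsB
      · intro F _ G hG _ hd _
        have h3 : G = ∅ := by
          rw [← disjoint_self_iff_empty]
          exact hd.mono_right hG
        rw [h3]
        simp only [sum_empty, sum_const_zero, abs_zero]
        positivity
    · push Not at hcase
      have hclo : clF Ys T (B.filter (fun y => w y < θ)) :=
        ⟨(filter_subset _ _).trans hBY, fun x hx x' hx' i hi =>
          hBT x (filter_subset _ _ hx) x' (filter_subset _ _ hx') i hi⟩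
      have hchi : clF Ys T (B.filter (fun y => ¬ w y < θ)) :=
        ⟨(filter_subset _ _).trans hBY, fun x hx x' hx' i hi =>
          hBT x (filter_subset _ _ hx) x' (filter_subset _ _ hx') i hi⟩
      -- the low part
      have hlowE : ∃ E' ⊆ B, (E'.card : ℝ) ≤ Ky * (1 / (32 * z)) * Real.sqrt B.card ∧
          ∀ F ⊆ A, ∀ G ⊆ B, Disjoint F (E1 ∪ E2) → Disjoint G E' →
            (∀ x ∈ F, ∀ y ∈ G, Tr u w x y) →
            |∑ x ∈ F, ∑ y ∈ G.filter (fun y => w y < θ), D x y| ≤ M * (1 / 4) := by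
        by_cases hbig : (B.card : ℝ) ≤ c ^ 2 * (B.filter (fun y => w y < θ)).card
        · refine ⟨∅, empty_subset _, ?_, ?_⟩
          · rw [card_empty, Nat.cast_zero]
            positivity
          · intro F hF G hG _ _ _
            exact hlow B hB hcase hbig F hF _ ((filter_subset _ _).trans hG)
        · push Not at hbig
          obtain ⟨E', hE', hE'c, h3⟩ := h1 _ hclo
          refine ⟨E', hE'.trans (filter_subset _ _), ?_, ?_⟩
          · refine hE'c.trans ?_
            have h4 : c * Real.sqrt (B.filter (fun y => w y < θ)).card ≤ Real.sqrt B.card := by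
              rw [← Real.sqrt_sq hc, ← Real.sqrt_mul (sq_nonneg c)]
              exact Real.sqrt_le_sqrt hbig.le
            have h5 : Ky * (c / (32 * z)) * Real.sqrt (B.filter (fun y => w y < θ)).card =
                Ky * (1 / (32 * z)) *
                  (c * Real.sqrt (B.filter (fun y => w y < θ)).card) := by ring
            rw [h5]
            exact mul_le_mul_of_nonneg_left h4 (by positivity)
          · intro F hF G hG hFE hGE hT
            refine h3 F hF _ (filter_subset_filter _ hG) (hFE.mono_right subset_union_left)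
              (hGE.mono_left (filter_subset _ _)) ?_
            intro x hx y hy
            exact hT x hx y (filter_subset _ _ hy)
      obtain ⟨E3, hE3, hE3c, h3⟩ := hlowE
      obtain ⟨E4, hE4, hE4c, h4⟩ := h2 _ hchi
      refine ⟨E3 ∪ E4, union_subset hE3 (hE4.trans (filter_subset _ _)), ?_, ?_⟩
      · have h5 : ((E3 ∪ E4).card : ℝ) ≤ E3.card + E4.card := by
          exact_mod_cast card_union_le E3 E4
        have h6 : Real.sqrt (B.filter (fun y => ¬ w y < θ)).card ≤ Real.sqrt B.card := by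
          apply Real.sqrt_le_sqrt
          exact_mod_cast card_le_card (filter_subset _ _)
        have h7 : Ky * (1 - 1 / (16 * z)) * Real.sqrt (B.filter (fun y => ¬ w y < θ)).card ≤
            Ky * (1 - 1 / (16 * z)) * Real.sqrt B.card := by
          apply mul_le_mul_of_nonneg_left h6
          rw [e16]
          apply mul_nonneg hKy
          linarith
        have h8 : Ky * (1 / (32 * z)) * Real.sqrt B.card +
            Ky * (1 - 1 / (16 * z)) * Real.sqrt B.card =
            Ky * (1 - 1 / (32 * z)) * Real.sqrt B.card := by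
          rw [e32, e16]
          ring
        linarith
      · intro F hF G hG hFE hGE hT
        have h5 := h3 F hF G hG hFE (hGE.mono_right subset_union_left) hT
        have h6 : |∑ x ∈ F, ∑ y ∈ G.filter (fun y => ¬ w y < θ), D x y| ≤ M * (1 / 4) := by
          rcases (G.filter (fun y => ¬ w y < θ)).eq_empty_or_nonempty with h7 | ⟨y0, hy0⟩
          · rw [h7]
            simp only [sum_empty, sum_const_zero, abs_zero]
            positivity
          · obtain ⟨hy0G, hy0w⟩ := mem_filter.1 hy0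
            have hFhi : F ⊆ A.filter (fun x => θ < u x) := by
              intro x hx
              refine mem_filter.2 ⟨hF hx, ?_⟩
              have h8 : w y0 < u x := hT x hx y0 hy0G
              push Not at hy0w
              exact lt_of_le_of_lt hy0w h8
            refine h4 F hFhi _ (filter_subset_filter _ hG) (hFE.mono_right subset_union_right)
              ((hGE.mono_right subset_union_right).mono_left (filter_subset _ _)) ?_
            intro x hx y hy
            exact hT x hx y (filter_subset _ _ hy)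
        have h7 : ∑ x ∈ F, ∑ y ∈ G, D x y =
            ∑ x ∈ F, ∑ y ∈ G.filter (fun y => w y < θ), D x y +
            ∑ x ∈ F, ∑ y ∈ G.filter (fun y => ¬ w y < θ), D x y := by
          rw [← sum_add_distrib]
          exact sum_congr rfl fun x _ => (sum_filter_add_sum_filter_not G _ _).symm
        rw [h7]
        calc _ ≤ _ := abs_add_le _ _
          _ ≤ M / 2 := by linarith

theorem pf_STH (hL : S_LOW) (hM : S_MED) (hX : S_NXY) (hU : S_NUB) (hW : S_WID)
    (hJ : S_JEN) : S_STH := by
  classical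
  intro N m k w0 P z lam s u w Xs Ys st A hN hOk hnh hnl hal hIH hAX hAT hAS hKA
  obtain ⟨θ, hθ1, hθ2⟩ := hM _ A u
  have hP1 : 1 ≤ P := le_trans (by norm_num) hN.hP
  have hTN : (st.T s).card ≤ N := (card_le_univ _).trans (Fintype.card_fin N).le
  obtain ⟨-, hcc2, -, -, hcc, hkX, hkY, hmM, -, -, -, hkXl, hkXh, -, -, hkYl, hkYh, -, hmMl,
    hmMh⟩ := hW N m k w0 P z (st.T s).card (st.T s).card 0 st.uX st.uY st.nl st.nh hN.hN hN.hz
      hN.hP hN.hPe le_rfl hTN
  -- the two children
  let lo : St N m := { st with nl := st.nl + 1 }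
  let hi : St N m := { st with nh := st.nh + 1 }
  have hlo : PPs s P z u w Ys lo A := by
    refine hIH lo ⟨hOk.h1, hOk.h2, hOk.h3, hOk.h4, hOk.h5⟩ ?_ A hAX hAT
    show (N - (st.T s).card) + (8 * z + 1 - st.nh) + (z + 1 - (st.nl + 1)) <
      (N - (st.T s).card) + (8 * z + 1 - st.nh) + (z + 1 - st.nl)
    omega
  have hAhi : Flat (st.T s) (A.filter (fun x => θ < u x)) := fun x hx x' hx' i hi =>
    hAT x (filter_subset _ _ hx) x' (filter_subset _ _ hx') i hi
  have hhi : PPs s P z u w Ys hi (A.filter (fun x => θ < u x)) := by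
    refine hIH hi ⟨hOk.h1, hOk.h2, hOk.h3, hOk.h4, ?_⟩ ?_ _ ((filter_subset _ _).trans hAX) hAhi
    · show st.nh + 1 ≤ 8 * z + 1
      omega
    · show (N - (st.T s).card) + (8 * z + 1 - (st.nh + 1)) + (z + 1 - st.nl) <
        (N - (st.T s).card) + (8 * z + 1 - st.nh) + (z + 1 - st.nl)
      omega
  have a1 : lo.kx s P z = st.kx s P z * (1 / 32) := hkXl
  have a2 : lo.ky s P z = st.ky s P z * (cc P / (32 * z)) := hkYl
  have a3 : lo.mm s P z = st.mm s P z * (1 / 4) := hmMl
  have b1 : hi.kx s P z = st.kx s P z * (8 / 7) := hkXh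
  have b2 : hi.ky s P z = st.ky s P z * (1 - 1 / (16 * z)) := hkYh
  have b3 : hi.mm s P z = st.mm s P z * (1 / 4) := hmMh
  unfold PPs at hlo hhi
  rw [a1, a2, a3] at hlo
  rw [b1, b2, b3] at hhi
  have hkx : 0 < st.kx s P z := hkX
  have hky : 0 < st.ky s P z := hkY
  have hmm : 0 < st.mm s P z := hmM
  refine sth_core u w (DD s P) _ Ys (st.T s) A θ _ _ _ (cc P) z hN.hz hkx.le hky.le hmm.le
    hcc.le (fun B hB => ⟨hB.1, hB.2.1⟩) hθ1 hlo hhi ?_
  intro B hB hBbig hBlo F hF G hG
  obtain ⟨hBY, hBT, hBS⟩ := hB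
  -- sizes
  have hcA : (A.card : ℝ) ≤ ((P : ℝ) ^ 16) ^ (N - (st.T s).card) := by
    have h1 := (hJ N (Fin (P ^ 16)) (Real.sqrt (Fintype.card (Fin (P ^ 16)))) (st.T s)
      (st.T s) ∅ A (Real.sqrt_nonneg _) (Real.sq_sqrt (Nat.cast_nonneg _)) Subset.rfl hAT).2.1
    rwa [Fintype.card_fin, Nat.cast_pow] at h1
  have hcB : (B.card : ℝ) ≤ ((2 : ℝ) ^ (P ^ 16)) ^ (N - (st.T s).card) := by
    have h1 := (hJ N (Fin (P ^ 16) → ZMod 2)
      (Real.sqrt (Fintype.card (Fin (P ^ 16) → ZMod 2))) (st.T s)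
      (st.T s) ∅ B (Real.sqrt_nonneg _) (Real.sq_sqrt (Nat.cast_nonneg _)) Subset.rfl hBT).2.1
    rw [Fintype.card_fun, Fintype.card_fin, ZMod.card, Nat.cast_pow, Nat.cast_ofNat] at h1
    exact h1
  have hkA : kX N P z (st.T s).card st.uX st.uY st.nl st.nh ^ 2 < A.card := by
    have h1 : (A.card : ℝ) = Real.sqrt A.card * Real.sqrt A.card :=
      (Real.mul_self_sqrt (Nat.cast_nonneg _)).symm
    have h2 : 0 ≤ Real.sqrt A.card := Real.sqrt_nonneg _
    have h3 : st.kx s P z < Real.sqrt A.card := by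
      by_contra hcon
      push Not at hcon
      have h4 := mul_le_mul_of_nonneg_right hcon h2
      linarith
    have h5 : st.kx s P z ^ 2 < A.card := by
      rw [h1]
      nlinarith
    exact h5
  have htk : (st.T s).card ≤ (k + 4) * st.T0.card := by
    have h1 : (st.T s).card ≤ st.T0.card + (s.Nb st.J \ st.T0).card := by
      have h2 : st.T s = st.T0 ∪ (s.Nb st.J \ st.T0) := by
        rw [union_sdiff_self_eq_union]
        rfl
      rw [h2]
      exact card_union_le _ _
    have h3 : (k + 3) * st.J.card ≤ (k + 3) * st.T0.card := Nat.mul_le_mul_left _ hOk.h1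
    have h4 := hOk.h2
    have h5 : (k + 4) * st.T0.card = st.T0.card + (k + 3) * st.T0.card := by ring
    omega
  obtain ⟨-, -, ht0, hsA, hsB⟩ := hX N m k w0 P z lam (st.T s).card st.T0.card st.uX st.uY
    st.nl st.nh A.card B.card hN hTN htk hOk.h3 hOk.h5 hcA hcB hkA hBbig
  have ht : (st.T s).card ≤ 2 * (k + 4) * z := by
    have h1 : (k + 4) * st.T0.card ≤ (k + 4) * (2 * z) := Nat.mul_le_mul_left _ ht0
    have h2 : (k + 4) * (2 * z) = 2 * (k + 4) * z := by ring
    omega
  obtain ⟨hnub1, hnub2, -⟩ := hU N m k w0 P z lam (st.T s).card st.nl st.nh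
    (A.filter (fun x => θ ≤ u x)).card (B.filter (fun y => w y < θ)).card hN hTN ht (by omega)
  have hA2 : (A.card : ℝ) ≤ 2 * (A.filter (fun x => θ ≤ u x)).card := by exact_mod_cast hθ2
  rw [hcc2] at hBlo
  have hrho := hnub1 (Nat.cast_nonneg _) (Nat.cast_nonneg _) (by
      rw [pow_succ (2 : ℝ) (3 * z), mul_assoc]
      exact hsA.trans (mul_le_mul_of_nonneg_left hA2 (by positivity))) (by
      rw [pow_add _ (2 * z + 5 + 4 * lam * z), mul_assoc]
      exact hsB.trans (mul_le_mul_of_nonneg_left hBlo (by positivity)))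
  have hfin := hL N m k w0 P z (rho k P z lam) s u w Xs Ys st A
    (A.filter (fun x => θ ≤ u x)) B (B.filter (fun y => w y < θ)) hP1 hOk (ht0.trans hN.hw) hal
    hAX hBY hAT hBT hAS hBS (filter_subset _ _) (filter_subset _ _) hA2 hBlo
    (fun x hx y hy => lt_of_lt_of_le (mem_filter.1 hy).2 (mem_filter.1 hx).2) hrho F hF G hG
  have hmm4 : 4 * (tau m k w0 P * vol N P) ≤ st.mm s P z := hnub2
  linarith

end Pool.Agent.H74.CPX
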